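import Mathlib

/-!
# Editing graphs to an induced-`H_9`-free graph: definitions and the random partition argument
-/

set_option autoImplicit false

open Finset

namespace Pool.Agent.T2H59.EditH9

/-- The graph `H_9` on `{0, …, 8}`: the square of the 9-cycle with the triangle on `{0, 3, 6}` added. -/
def H9 : SimpleGraph (Fin 9) where
  Adj i j := i ≠ j ∧ ((i - j = 1 ∨ i - j = 2 ∨ j - i = 1 ∨ j - i = 2) ∨
    (i.val % 3 = 0 ∧ j.val % 3 = 0))
  symm := ⟨fun i j h => ⟨h.1.symm, by
    rcases h.2 with h | h
    · left; tauto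
    · right; exact h.symm⟩⟩
  loopless := ⟨fun i h => h.1 rfl⟩

instance : DecidableRel H9.Adj := fun i j => by unfold H9; infer_instance

/-- `F` has no induced subgraph isomorphic to `H_9`. -/
def H9Free {V : Type} (F : SimpleGraph V) : Prop := IsEmpty (H9 ↪g F)

/-- `Dist(G, Forb(H_9))`: the least number of edges in which a graph without induced `H_9` on the
same vertex set can differ from `G`. -/
noncomputable def dist {V : Type} (G : SimpleGraph V) : ℕ :=
  sInf {k : ℕ | ∃ F : SimpleGraph V, H9Free F ∧ (symmDiff F.edgeSet G.edgeSet).ncard = k}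

/-- A coloured pattern on `m` classes: the value `0` means that all edges between (or inside) the
classes are deleted, `1` that nothing is changed, `2` that all edges are added. -/
abbrev Pattern (m : ℕ) := Fin m → Fin m → Fin 3

variable {V : Type} {m : ℕ}

/-- The graph obtained from `G` by editing according to the pattern `t` and the partition `c`. -/
def edit (t : Pattern m) (ht : ∀ a b, t a b = t b a) (c : V → Fin m) (G : SimpleGraph V) :
    SimpleGraph V where
  Adj u v := u ≠ v ∧ (t (c u) (c v) = 2 ∨ (t (c u) (c v) = 1 ∧ G.Adj u v))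
  symm := ⟨fun u v h => ⟨h.1.symm, by
    rw [ht (c v) (c u)]
    rcases h.2 with h | h
    · exact Or.inl h
    · exact Or.inr ⟨h.1, h.2.symm⟩⟩⟩
  loopless := ⟨fun u h => h.1 rfl⟩

/-- The pattern admits no map of `H_9`. -/
def Avoids (t : Pattern m) : Prop :=
  ¬ ∃ f : Fin 9 → Fin m, ∀ i j : Fin 9, i ≠ j →
    (H9.Adj i j → t (f i) (f j) ≠ 0) ∧ (¬ H9.Adj i j → t (f i) (f j) ≠ 2)

theorem edit_free {t : Pattern m} (ht : ∀ a b, t a b = t b a) (ha : Avoids t) (c : V → Fin m)
    (G : SimpleGraph V) : H9Free (edit t ht c G) := by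
  refine ⟨fun e => ha ⟨fun i => c (e i), fun i j hij => ⟨fun h h0 => ?_, fun h h2 => ?_⟩⟩⟩
  · have h' : (edit t ht c G).Adj (e i) (e j) := e.map_rel_iff.2 h
    rcases h'.2 with h'' | h''
    · rw [h0] at h''
      exact absurd h'' (by decide)
    · rw [h0] at h''
      exact absurd h''.1 (by decide)
  · apply h
    have h' : (edit t ht c G).Adj (e i) (e j) := ⟨fun he => hij (e.injective he), Or.inl h2⟩
    exact e.map_rel_iff.1 h'

theorem dist_le {t : Pattern m} (ht : ∀ a b, t a b = t b a) (ha : Avoids t) (c : V → Fin m)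
    (G : SimpleGraph V) :
    dist G ≤ (symmDiff (edit t ht c G).edgeSet G.edgeSet).ncard :=
  Nat.sInf_le ⟨edit t ht c G, edit_free ht ha c G, rfl⟩

section count

variable [Fintype V] [DecidableEq V]

open Classical in
theorem two_card (H : SimpleGraph V) :
    2 * (H.edgeSet.ncard : ℝ) = ∑ u : V, ∑ v : V, if H.Adj u v then (1 : ℝ) else 0 := by
  have h1 : H.edgeSet.ncard = H.edgeFinset.card := by
    rw [← SimpleGraph.coe_edgeFinset, Set.ncard_coe_finset]
  have h2 := H.sum_degrees_eq_twice_card_edges
  have h3 : ∀ u : V, (∑ v : V, if H.Adj u v then (1 : ℝ) else 0) = H.degree u := by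
    intro u
    rw [← Finset.sum_filter, Finset.sum_const, nsmul_eq_mul, mul_one]
    congr 1
    rw [← SimpleGraph.card_neighborFinset_eq_degree]
    congr 1
    ext v
    simp
  rw [Finset.sum_congr rfl fun u _ => h3 u, h1]
  exact_mod_cast h2.symm

open Classical in
/-- The cost of the pair `u, v`. -/
noncomputable def pc (t : Pattern m) (G : SimpleGraph V) (u v : V) (a b : Fin m) : ℝ :=
  if u = v then 0 else if G.Adj u v then (if t a b = 0 then 1 else 0) else
    (if t a b = 2 then 1 else 0)

theorem two_cost {t : Pattern m} (ht : ∀ a b, t a b = t b a) (c : V → Fin m)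
    (G : SimpleGraph V) :
    2 * ((symmDiff (edit t ht c G).edgeSet G.edgeSet).ncard : ℝ) =
      ∑ u : V, ∑ v : V, pc t G u v (c u) (c v) := by
  classical
  have h1 : symmDiff (edit t ht c G).edgeSet G.edgeSet
      = ((edit t ht c G \ G) ⊔ (G \ edit t ht c G)).edgeSet := by
    rw [SimpleGraph.edgeSet_sup, SimpleGraph.edgeSet_sdiff, SimpleGraph.edgeSet_sdiff]
    rfl
  rw [h1, two_card]
  refine Finset.sum_congr rfl fun u _ => Finset.sum_congr rfl fun v _ => ?_
  unfold pc
  by_cases huv : u = v
  · subst huv
    simp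
  · simp only [SimpleGraph.sup_adj, SimpleGraph.sdiff_adj, huv, if_false]
    by_cases hG : G.Adj u v
    · simp only [hG, not_true, and_false, true_and, false_or, if_true]
      have : (¬ (edit t ht c G).Adj u v) ↔ t (c u) (c v) = 0 := by
        unfold edit
        simp only [ne_eq, huv, not_false_iff, true_and, hG, and_true]
        generalize t (c u) (c v) = x
        revert x
        decide
      simp only [this]
    · simp only [hG, not_false_iff, and_true, false_and, or_false, if_false]
      have : ((edit t ht c G).Adj u v) ↔ t (c u) (c v) = 2 := by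
        unfold edit
        simp only [ne_eq, huv, not_false_iff, true_and, hG, and_false, or_false]
      simp only [this]

/-- The weight of a partition. -/
noncomputable def wt (x : Fin m → ℝ) (c : V → Fin m) : ℝ := ∏ v, x (c v)

theorem sum_wt_prod (x : Fin m → ℝ) (f : V → Fin m → ℝ) :
    ∑ c : V → Fin m, wt x c * ∏ v, f v (c v) = ∏ v, ∑ a, x a * f v a := by
  classical
  rw [Finset.prod_univ_sum]
  rw [Fintype.piFinset_univ]
  refine Finset.sum_congr rfl fun c _ => ?_
  rw [wt, ← Finset.prod_mul_distrib]

theorem sum_wt {x : Fin m → ℝ} (hx : ∑ a, x a = 1) : ∑ c : V → Fin m, wt x c = 1 := by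
  have h := sum_wt_prod (V := V) x (fun _ _ => 1)
  simp only [Finset.prod_const_one, mul_one, hx] at h
  exact h

theorem expect {x : Fin m → ℝ} (hx : ∑ a, x a = 1) {u v : V} (huv : u ≠ v)
    (h : Fin m → Fin m → ℝ) :
    ∑ c : V → Fin m, wt x c * h (c u) (c v) = ∑ a, ∑ b, x a * x b * h a b := by
  classical
  have key : ∀ a b : Fin m, ∑ c : V → Fin m, wt x c * (if c u = a ∧ c v = b then (1 : ℝ) else 0)
      = x a * x b := by
    intro a b
    have h1 := sum_wt_prod (V := V) x (fun w d => if w = u then (if d = a then 1 else 0) else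
      if w = v then (if d = b then 1 else 0) else 1)
    have h2 : ∀ c : V → Fin m, (∏ w, (if w = u then (if c w = a then (1 : ℝ) else 0) else
        if w = v then (if c w = b then 1 else 0) else 1))
        = if c u = a ∧ c v = b then (1 : ℝ) else 0 := by
      intro c
      rw [← Finset.mul_prod_erase univ _ (mem_univ u),
        ← Finset.mul_prod_erase (univ.erase u) _ (mem_erase.2 ⟨huv.symm, mem_univ v⟩)]
      have h3 : ∏ w ∈ (univ.erase u).erase v, (if w = u then (if c w = a then (1 : ℝ) else 0) else
          if w = v then (if c w = b then 1 else 0) else 1) = 1 := by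
        refine Finset.prod_eq_one fun w hw => ?_
        rw [mem_erase, mem_erase] at hw
        simp [hw.1, hw.2.1]
      rw [h3]
      simp only [if_true, huv.symm, if_false, mul_one]
      by_cases h4 : c u = a <;> by_cases h5 : c v = b <;> simp [h4, h5]
    rw [Finset.sum_congr rfl fun c _ => by rw [h2 c]] at h1
    rw [h1]
    rw [← Finset.mul_prod_erase univ _ (mem_univ u),
        ← Finset.mul_prod_erase (univ.erase u) _ (mem_erase.2 ⟨huv.symm, mem_univ v⟩)]
    have h3 : ∏ w ∈ (univ.erase u).erase v, (∑ d, x d * (if w = u then (if d = a then (1 : ℝ) else 0)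
        else if w = v then (if d = b then 1 else 0) else 1)) = 1 := by
      refine Finset.prod_eq_one fun w hw => ?_
      rw [mem_erase, mem_erase] at hw
      simp [hw.1, hw.2.1, hx]
    rw [h3]
    simp [huv.symm]
  have h4 : ∀ c : V → Fin m, wt x c * h (c u) (c v) =
      ∑ a, ∑ b, h a b * (wt x c * (if c u = a ∧ c v = b then (1 : ℝ) else 0)) := by
    intro c
    rw [Finset.sum_eq_single (c u), Finset.sum_eq_single (c v)]
    · simp
      ring
    · intro b _ hb
      rw [if_neg (fun h => hb h.2.symm)]
      ring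
    · intro h; exact absurd (mem_univ _) h
    · intro a _ ha
      refine Finset.sum_eq_zero fun b _ => ?_
      rw [if_neg (fun h => ha h.1.symm)]
      ring
    · intro h; exact absurd (mem_univ _) h
  rw [Finset.sum_congr rfl fun c _ => h4 c, Finset.sum_comm]
  refine Finset.sum_congr rfl fun a _ => ?_
  rw [Finset.sum_comm]
  refine Finset.sum_congr rfl fun b _ => ?_
  rw [← Finset.mul_sum, key]
  ring

/-- The random partition argument. -/
theorem dist_le_avg {t : Pattern m} (ht : ∀ a b, t a b = t b a) (ha : Avoids t)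
    {x : Fin m → ℝ} (hx : ∑ a, x a = 1) (hx0 : ∀ a, 0 ≤ x a) (G : SimpleGraph V) :
    (dist G : ℝ) ≤ (∑ a, ∑ b, x a * x b * (if t a b = 0 then 1 else 0)) * G.edgeSet.ncard +
      (∑ a, ∑ b, x a * x b * (if t a b = 2 then 1 else 0)) *
        (((Fintype.card V).choose 2 : ℕ) - G.edgeSet.ncard) := by
  classical
  set S : ℝ := ∑ a, ∑ b, x a * x b * (if t a b = 0 then 1 else 0) with hS
  set T : ℝ := ∑ a, ∑ b, x a * x b * (if t a b = 2 then 1 else 0) with hT
  -- the average
  have havg : ∑ c : V → Fin m, wt x c *
      (2 * ((symmDiff (edit t ht c G).edgeSet G.edgeSet).ncard : ℝ)) =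
      S * (2 * G.edgeSet.ncard) + T * (2 * ((Fintype.card V).choose 2 : ℕ) - 2 * G.edgeSet.ncard) := by
    have h1 : ∑ c : V → Fin m, wt x c *
        (2 * ((symmDiff (edit t ht c G).edgeSet G.edgeSet).ncard : ℝ)) =
        ∑ u : V, ∑ v : V, ∑ c : V → Fin m, wt x c * pc t G u v (c u) (c v) := by
      rw [Finset.sum_congr rfl fun c _ => by rw [two_cost, Finset.mul_sum]]
      rw [Finset.sum_comm]
      refine Finset.sum_congr rfl fun u _ => ?_
      rw [Finset.sum_congr rfl fun c _ => by rw [Finset.mul_sum]]
      rw [Finset.sum_comm]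
    have h2 : ∀ u v : V, ∑ c : V → Fin m, wt x c * pc t G u v (c u) (c v) =
        S * (if G.Adj u v then 1 else 0) +
          T * ((if u ≠ v then 1 else 0) - (if G.Adj u v then 1 else 0)) := by
      intro u v
      by_cases huv : u = v
      · subst huv
        simp [pc]
      · rw [expect hx huv (pc t G u v)]
        by_cases hG : G.Adj u v
        · simp [pc, huv, hG, hS]
        · simp [pc, huv, hG, hT]
    rw [h1, Finset.sum_congr rfl fun u _ => Finset.sum_congr rfl fun v _ => h2 u v]
    simp only [Finset.sum_add_distrib, ← Finset.mul_sum, Finset.sum_sub_distrib]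
    rw [← two_card G]
    have h3 : ∑ u : V, ∑ v : V, (if u ≠ v then (1 : ℝ) else 0) =
        2 * ((Fintype.card V).choose 2 : ℕ) := by
      have h4 : ∀ u : V, ∑ v : V, (if u ≠ v then (1 : ℝ) else 0) = (Fintype.card V : ℝ) - 1 := by
        intro u
        have h5 : ∀ v : V, (if u ≠ v then (1 : ℝ) else 0) = 1 - (if u = v then 1 else 0) := by
          intro v
          by_cases h : u = v <;> simp [h]
        rw [Finset.sum_congr rfl fun v _ => h5 v, Finset.sum_sub_distrib]
        simp
      rw [Finset.sum_congr rfl fun u _ => h4 u, Finset.sum_const, nsmul_eq_mul, Finset.card_univ,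
        Nat.cast_choose_two]
      ring
    rw [h3]
  by_contra hcon
  push Not at hcon
  have hlt : ∑ c : V → Fin m, wt x c *
      (2 * ((symmDiff (edit t ht c G).edgeSet G.edgeSet).ncard : ℝ)) ≥
      ∑ c : V → Fin m, wt x c * (2 * (dist G : ℝ)) := by
    refine Finset.sum_le_sum fun c _ => ?_
    have h1 : (dist G : ℝ) ≤ ((symmDiff (edit t ht c G).edgeSet G.edgeSet).ncard : ℝ) := by
      exact_mod_cast dist_le ht ha c G
    have h2 : 0 ≤ wt x c := Finset.prod_nonneg fun v _ => hx0 _
    exact mul_le_mul_of_nonneg_left (by linarith) h2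
  rw [← Finset.sum_mul, sum_wt hx, havg] at hlt
  linarith

end count

end Pool.Agent.T2H59.EditH9
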