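import Pool.Agent.T2H59.EditH9.Defs

/-!
# The edit distance from the class of induced-`H_9`-free graphs is less than `(3 - √5)/4`

The conjectured value `(3 - √5)/4 = 0.19098…` of `d*(Forb(H_9))` comes from three ways of editing a
graph: three independent sets; two cliques; four independent sets two of which are completely
joined. We use one more pattern: five independent sets `A₁, A₂, B₁, B₂, C`, where `A₁, A₂` are
completely joined, `B₁, B₂` are completely joined, and nothing is changed between the other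
pairs. No such graph contains `H_9` as an induced subgraph (checked by a finite search). A random
partition with the probabilities `a, a, a, a, 1 - 4a`, `a = p / (1 + 4p)`, costs `p / (1 + 4p)` per pair for
graphs of density `p`, two cliques cost `(1 - p) / 2`; so `d*(Forb(H_9)) ≤ (7 - √17)/16 = 0.1798…`.
-/

set_option autoImplicit false

open Finset Filter

namespace Pool.Agent.Results.MP_42979a_co.EditDistanceSmaller

open Pool.Agent.T2H59.EditH9

/-- `Dist(n, Forb(H_9))`. -/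
noncomputable def distN (n : ℕ) : ℕ := sSup {k : ℕ | ∃ G : SimpleGraph (Fin n), dist G = k}

/-- `d*(Forb(H_9))` (the limit is known to exist; we take the upper limit). -/
noncomputable def dstar : ℝ := limsup (fun n : ℕ => (distN n : ℝ) / (n.choose 2 : ℕ)) atTop

/-- Five independent sets, the first two and the next two completely joined. -/
def t5 : Pattern 5 := fun a b =>
  if a = b then 0 else if (a = 0 ∧ b = 1) ∨ (a = 1 ∧ b = 0) ∨ (a = 2 ∧ b = 3) ∨ (a = 3 ∧ b = 2) then 2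
  else 1

/-- Two cliques. -/
def t2 : Pattern 2 := fun a b => if a = b then 2 else 1

def R (e : Bool) (a b : Fin 5) : Bool := if e then decide (t5 a b ≠ 0) else decide (t5 a b ≠ 2)

set_option synthInstance.maxSize 100000 in
set_option synthInstance.maxHeartbeats 0 in
theorem no5 : ∀ a0 : Fin 5, 
    ∀ a1 : Fin 5, R true a0 a1 = true → 
    ∀ a2 : Fin 5, R true a0 a2 = true → R true a1 a2 = true → 
    ∀ a3 : Fin 5, R true a0 a3 = true → R true a1 a3 = true → R true a2 a3 = true → 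
    ∀ a4 : Fin 5, R false a0 a4 = true → R false a1 a4 = true → R true a2 a4 = true → R true a3 a4 = true → 
    ∀ a5 : Fin 5, R false a0 a5 = true → R false a1 a5 = true → R false a2 a5 = true → R true a3 a5 = true → R true a4 a5 = true → 
    ∀ a6 : Fin 5, R true a0 a6 = true → R false a1 a6 = true → R false a2 a6 = true → R true a3 a6 = true → R true a4 a6 = true → R true a5 a6 = true → 
    ∀ a7 : Fin 5, R true a0 a7 = true → R false a1 a7 = true → R false a2 a7 = true → R false a3 a7 = true → R false a4 a7 = true → R true a5 a7 = true → R true a6 a7 = true → 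
    ∀ a8 : Fin 5, R true a0 a8 = true → R true a1 a8 = true → R false a2 a8 = true → R false a3 a8 = true → R false a4 a8 = true → R false a5 a8 = true → R true a6 a8 = true → R true a7 a8 = true → 
    False := by decide +kernel

theorem avoids5 : Avoids t5 := by
  rintro ⟨f, hf⟩
  have hR : ∀ i j : Fin 9, i ≠ j → R (decide (H9.Adj i j)) (f i) (f j) = true := by
    intro i j hij
    unfold R
    by_cases h : H9.Adj i j
    · simp [h, (hf i j hij).1 h]
    · simp [h, (hf i j hij).2 h]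
  exact no5 (f 0) (f 1) (hR 0 1 (by decide)) (f 2) (hR 0 2 (by decide)) (hR 1 2 (by decide)) (f 3) (hR 0 3 (by decide)) (hR 1 3 (by decide)) (hR 2 3 (by decide)) (f 4) (hR 0 4 (by decide)) (hR 1 4 (by decide)) (hR 2 4 (by decide)) (hR 3 4 (by decide)) (f 5) (hR 0 5 (by decide)) (hR 1 5 (by decide)) (hR 2 5 (by decide)) (hR 3 5 (by decide)) (hR 4 5 (by decide)) (f 6) (hR 0 6 (by decide)) (hR 1 6 (by decide)) (hR 2 6 (by decide)) (hR 3 6 (by decide)) (hR 4 6 (by decide)) (hR 5 6 (by decide)) (f 7) (hR 0 7 (by decide)) (hR 1 7 (by decide)) (hR 2 7 (by decide)) (hR 3 7 (by decide)) (hR 4 7 (by decide)) (hR 5 7 (by decide)) (hR 6 7 (by decide)) (f 8) (hR 0 8 (by decide)) (hR 1 8 (by decide)) (hR 2 8 (by decide)) (hR 3 8 (by decide)) (hR 4 8 (by decide)) (hR 5 8 (by decide)) (hR 6 8 (by decide)) (hR 7 8 (by decide))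

theorem avoids2 : Avoids t2 := by
  rintro ⟨f, hf⟩
  have h1 := (hf 1 4 (by decide)).2 (by decide)
  have h2 := (hf 1 7 (by decide)).2 (by decide)
  have h3 := (hf 4 7 (by decide)).2 (by decide)
  revert h1 h2 h3
  generalize f 1 = x
  generalize f 4 = y
  generalize f 7 = z
  revert x y z
  decide

section
variable {n : ℕ} (G : SimpleGraph (Fin n))

theorem bound2 : (dist G : ℝ) ≤ ((n.choose 2 : ℕ) - G.edgeSet.ncard) / 2 := by
  have h := dist_le_avg (t := t2) (by decide) avoids2 (x := fun _ => 1 / 2)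
    (by norm_num) (by intro a; norm_num) G
  rw [Fintype.card_fin] at h
  simp [Fin.sum_univ_succ, t2] at h
  linarith

theorem bound5 {a : ℝ} (ha0 : 0 ≤ a) (ha : a ≤ 1 / 4) :
    (dist G : ℝ) ≤ (4 * a ^ 2 + (1 - 4 * a) ^ 2) * G.edgeSet.ncard +
      4 * a ^ 2 * ((n.choose 2 : ℕ) - G.edgeSet.ncard) := by
  have h := dist_le_avg (t := t5) (by decide) avoids5 (x := ![a, a, a, a, 1 - 4 * a])
    (by simp [Fin.sum_univ_succ]; ring)
    (by intro b; fin_cases b <;> simp <;> linarith) G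
  rw [Fintype.card_fin] at h
  have e0 : (∑ b : Fin 5, ∑ c : Fin 5, (![a, a, a, a, 1 - 4 * a] : Fin 5 → ℝ) b *
      (![a, a, a, a, 1 - 4 * a] : Fin 5 → ℝ) c * (if t5 b c = 0 then 1 else 0))
      = 4 * a ^ 2 + (1 - 4 * a) ^ 2 := by
    have : ∀ b c : Fin 5, (t5 b c = 0) ↔ b = c := by decide
    simp only [this]
    simp [Fin.sum_univ_succ]
    try ring
  have e2 : (∑ b : Fin 5, ∑ c : Fin 5, (![a, a, a, a, 1 - 4 * a] : Fin 5 → ℝ) b *
      (![a, a, a, a, 1 - 4 * a] : Fin 5 → ℝ) c * (if t5 b c = 2 then 1 else 0)) = 4 * a ^ 2 := by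
    have : ∀ b c : Fin 5, (t5 b c = 2) ↔
      ((b = 0 ∧ c = 1) ∨ (b = 1 ∧ c = 0) ∨ (b = 2 ∧ c = 3) ∨ (b = 3 ∧ c = 2)) := by decide
    simp only [this]
    simp [Fin.sum_univ_succ]
    ring
  rw [e0, e2] at h
  exact h

theorem ncard_le : (G.edgeSet.ncard : ℝ) ≤ (n.choose 2 : ℕ) := by
  classical
  have h := G.card_edgeFinset_le_card_choose_two
  rw [Fintype.card_fin] at h
  have h1 : G.edgeSet.ncard = G.edgeFinset.card := by
    rw [← SimpleGraph.coe_edgeFinset, Set.ncard_coe_finset]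
  rw [h1]
  exact_mod_cast h

end

theorem sqrt17 : (4 : ℝ) < √17 ∧ √17 < 5 ∧ √17 ^ 2 = 17 := by
  refine ⟨?_, ?_, Real.sq_sqrt (by norm_num)⟩
  · exact Real.lt_sqrt_of_sq_lt (by norm_num)
  · rw [Real.sqrt_lt' (by norm_num)]
    norm_num

theorem bound_all {n : ℕ} (G : SimpleGraph (Fin n)) :
    (dist G : ℝ) ≤ (7 - √17) / 16 * (n.choose 2 : ℕ) := by
  obtain ⟨h4, h5, hs⟩ := sqrt17
  have hN : (0 : ℝ) ≤ (n.choose 2 : ℕ) := Nat.cast_nonneg _
  rcases le_total ((1 + √17) / 8 * (n.choose 2 : ℕ)) (G.edgeSet.ncard : ℝ) with h | h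
  · have := bound2 G
    nlinarith
  · have h1 := bound5 G (a := (7 - √17) / 16) (by linarith) (by linarith)
    have h2 : (1 - 4 * ((7 - √17) / 16)) ^ 2 * (G.edgeSet.ncard : ℝ) ≤
        (1 - 4 * ((7 - √17) / 16)) ^ 2 * ((1 + √17) / 8 * (n.choose 2 : ℕ)) :=
      mul_le_mul_of_nonneg_left h (sq_nonneg _)
    have h3 : (1 - 4 * ((7 - √17) / 16)) ^ 2 * ((1 + √17) / 8) + 4 * ((7 - √17) / 16) ^ 2
        = (7 - √17) / 16 := by
      set s := √17 with hs'
      have : s ^ 3 = 17 * s := by rw [pow_succ, hs]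
      ring_nf
      rw [this, hs]
      ring
    calc (dist G : ℝ) ≤ _ := h1
      _ = (1 - 4 * ((7 - √17) / 16)) ^ 2 * (G.edgeSet.ncard : ℝ) +
          4 * ((7 - √17) / 16) ^ 2 * (n.choose 2 : ℕ) := by ring
      _ ≤ (1 - 4 * ((7 - √17) / 16)) ^ 2 * ((1 + √17) / 8 * (n.choose 2 : ℕ)) +
          4 * ((7 - √17) / 16) ^ 2 * (n.choose 2 : ℕ) := by linarith
      _ = ((1 - 4 * ((7 - √17) / 16)) ^ 2 * ((1 + √17) / 8) + 4 * ((7 - √17) / 16) ^ 2) *
          (n.choose 2 : ℕ) := by ring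
      _ = _ := by rw [h3]

theorem sSup_le_real {s : Set ℕ} {B : ℝ} (hB : 0 ≤ B) (h : ∀ k ∈ s, (k : ℝ) ≤ B) :
    ((sSup s : ℕ) : ℝ) ≤ B := by
  rcases s.eq_empty_or_nonempty with rfl | hne
  · simpa using hB
  · have hb : BddAbove s := ⟨⌈B⌉₊, fun k hk => by
      have := (h k hk).trans (Nat.le_ceil B)
      exact_mod_cast this⟩
    exact h _ (Nat.sSup_mem hne hb)

theorem distN_le (n : ℕ) : (distN n : ℝ) ≤ (7 - √17) / 16 * (n.choose 2 : ℕ) := by
  obtain ⟨h4, h5, hs⟩ := sqrt17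
  refine sSup_le_real (mul_nonneg (by linarith) (Nat.cast_nonneg _)) ?_
  rintro k ⟨G, rfl⟩
  exact bound_all G

theorem choose_pos {n : ℕ} (hn : 2 ≤ n) : (0 : ℝ) < (n.choose 2 : ℕ) := by
  exact_mod_cast Nat.choose_pos hn

theorem value_lt : (7 - √17) / 16 < (3 - √5) / 4 := by
  have h5 : √5 < 2.24 := by
    rw [Real.sqrt_lt' (by norm_num)]
    norm_num
  have h17 : (4.12 : ℝ) < √17 := Real.lt_sqrt_of_sq_lt (by norm_num)
  linarith

theorem dist_le_distN {n : ℕ} (G : SimpleGraph (Fin n)) : dist G ≤ distN n := by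
  refine le_csSup ⟨⌈(7 - √17) / 16 * (n.choose 2 : ℕ)⌉₊, ?_⟩ ⟨G, rfl⟩
  rintro k ⟨G', rfl⟩
  have := (bound_all G').trans (Nat.le_ceil _)
  exact_mod_cast this

/-- **Main result.** `d*(Forb(H_9)) ≤ (7 - √17)/16 < (3 - √5)/4`. -/
theorem result :
    (∀ (n : ℕ) (G : SimpleGraph (Fin n)), dist G ≤ distN n) ∧
    (∀ n : ℕ, (distN n : ℝ) ≤ (7 - √17) / 16 * (n.choose 2 : ℕ)) ∧
    dstar ≤ (7 - √17) / 16 ∧ (7 - √17) / 16 < (3 - √5) / 4 ∧ dstar < (3 - √5) / 4 ∧
    (∀ d : ℝ, Tendsto (fun n : ℕ => (distN n : ℝ) / (n.choose 2 : ℕ)) atTop (nhds d) →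
      d = dstar) := by
  have hb : ∀ᶠ n : ℕ in atTop, (distN n : ℝ) / (n.choose 2 : ℕ) ≤ (7 - √17) / 16 := by
    filter_upwards [eventually_ge_atTop 2] with n hn
    rw [div_le_iff₀ (choose_pos hn)]
    exact distN_le n
  have hd : dstar ≤ (7 - √17) / 16 := by
    refine limsup_le_of_le ?_ hb
    refine IsBoundedUnder.isCoboundedUnder_le ?_
    refine ⟨0, ?_⟩
    rw [eventually_map]
    exact Eventually.of_forall fun n => div_nonneg (Nat.cast_nonneg _) (Nat.cast_nonneg _)
  exact ⟨fun _ G => dist_le_distN G, distN_le, hd, value_lt, hd.trans_lt value_lt,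
    fun d h => h.limsup_eq.symm⟩

end Pool.Agent.Results.MP_42979a_co.EditDistanceSmaller
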